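import Mathlib
import Pool.Agent.Lib.MP_af06f6_co.Fin.Final

open Set Metric Pool.Agent.Lib.MP_af06f6_co

namespace Pool.Agent.Results.MP_af06f6_co.CageMinimum

/-- The function of one variable whose minimum over `w > 1` is the infimum of the total edge lengths. -/
noncomputable def F (w : ℝ) : ℝ :=
  2 * w + 18 * w / (w ^ 2 + 3) + 6 * w / (w ^ 2 - 1) + 12 * w / (w ^ 2 + 7)

/-- The infimum of the total edge length over all edge-tangent polyhedral cages of a unit sphere is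
`F w₀`, the minimum of `F` over `(1, ∞)`, where `w₀ ^ 2` is the only root greater than `1` of
`W ^ 6 - 23 W ^ 4 - 24 W ^ 3 - 605 W ^ 2 - 6312 W + 819`; it is not attained. -/
theorem result : ∃ w₀ : ℝ, 1 < w₀ ∧ (∀ w : ℝ, 1 < w → F w₀ ≤ F w) ∧
    (w₀ ^ 2) ^ 6 - 23 * (w₀ ^ 2) ^ 4 - 24 * (w₀ ^ 2) ^ 3 - 605 * (w₀ ^ 2) ^ 2 - 6312 * w₀ ^ 2 + 819 = 0 ∧
    (∀ W : ℝ, 1 < W → W ^ 6 - 23 * W ^ 4 - 24 * W ^ 3 - 605 * W ^ 2 - 6312 * W + 819 = 0 →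
      W = w₀ ^ 2) ∧
    14.96586 < F w₀ ∧ F w₀ < 14.965862 ∧
    ∀ c : E3, IsGLB (totalLength '' cageClass c) (F w₀) ∧
      ∀ P ∈ cageClass c, (edges P).Finite ∧ F w₀ < totalLength P := by
  obtain ⟨w₀, h1, hmin, hs, hu, hlo, hup, hc⟩ := main_theorem
  refine ⟨w₀, h1, hmin, hs, hu, hlo, hup, fun c => ?_⟩
  obtain ⟨hglb, -, hP⟩ := hc c
  exact ⟨hglb, hP⟩

end Pool.Agent.Results.MP_af06f6_co.CageMinimum
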